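import Pool.Agent.MOD.Fin
import Pool.Agent.MOD.Chk

/-!
# The classification of non-square-free `d ≡ 2 mod 4` with `M_odd(d) ≤ 2` up to a finite set
-/

set_option autoImplicit false

namespace Pool.Agent.Results.MP_e8a6f8_nt.FinitelyMany

open Finset

/-- The largest number of distinct primes dividing `d + x ^ 2`, over odd `x` with
`1 ≤ x ≤ √d`. -/
def Modd (d : ℕ) : ℕ :=
  ((Finset.Icc 1 d.sqrt).filter (fun x => Odd x)).sup (fun x => (d + x ^ 2).primeFactors.card)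

/-- The forty-four values of the problem. -/
def S : Finset ℕ :=
  {18, 50, 54, 90, 98, 126, 162, 198, 242, 250, 294, 342, 378, 450, 522, 550, 558, 702, 722,
    850, 882, 918, 1078, 1150, 1422, 1450, 2662, 2842, 3250, 3798, 4018, 4698, 4750, 5350,
    7018, 9802, 11650, 12838, 16762, 17182, 20938, 23998, 30682, 48778}

private theorem S_sq : ∀ d ∈ S, d % 4 = 2 ∧ ∃ p ∈ Finset.Icc 2 100, p * p ∣ d := by
  decide +kernel

theorem result :
    (∀ d ∈ S, d % 4 = 2 ∧ ¬ Squarefree d ∧ Modd d ≤ 2) ∧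
      {d : ℕ | d % 4 = 2 ∧ ¬ Squarefree d ∧ Modd d ≤ 2}.Finite := by
  refine ⟨fun d hd => ?_, ?_⟩
  · obtain ⟨h1, p, hp, hpd⟩ := S_sq d hd
    refine ⟨h1, ?_, ?_⟩
    · intro hsq
      have h2 := Nat.isUnit_iff.1 (hsq p hpd)
      rw [mem_Icc] at hp
      omega
    · obtain ⟨h2, h3, h4⟩ := Pool.Agent.MOD.chk_all d hd
      unfold Modd
      refine Finset.sup_le fun x hx => ?_
      rw [mem_filter, mem_Icc] at hx
      obtain ⟨⟨_, hx2⟩, j, hj⟩ := hx
      rw [hj]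
      refine Pool.Agent.MOD.chk_spec d ((d.sqrt + 1) / 2) h2 ?_ h4 j (by omega)
      refine lt_of_le_of_lt ?_ h3
      have h5 : 2 * ((d.sqrt + 1) / 2) + 1 ≤ 2 * (d.sqrt / 2 + 1) + 1 := by omega
      have h6 := Nat.pow_le_pow_left h5 2
      omega
  · refine Pool.Agent.MOD.finite_Modd.subset ?_
    rintro d ⟨h1, h2, h3⟩
    refine ⟨h1, h2, fun x hx hxd => ?_⟩
    refine le_trans ?_ h3
    unfold Modd
    refine Finset.le_sup (f := fun x => (d + x ^ 2).primeFactors.card) ?_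
    rw [mem_filter, mem_Icc, Nat.le_sqrt']
    exact ⟨⟨hx.pos, hxd⟩, hx⟩

end Pool.Agent.Results.MP_e8a6f8_nt.FinitelyMany
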